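import Pool.Agent.TH125.Gal.Pub2

/-!
# Families of varieties with parallel transport, linear subcategories and Q1: definitions
-/

open CategoryTheory AlgebraicGeometry

universe u v w w'

namespace Pool.Agent.K3h96.VH

open Pool.Agent.H914 Pool.Agent.H914.VarClass Pool.Agent.H914.VarClass.Obj
  Pool.Agent.H914.WeilCohomology Pool.Agent.H281R3.HT Pool.Agent.W552 Pool.Agent.TH125.Gal

/-! ### Local systems of algebras -/

section Alg

variable {K : Type*} [Field K] {S : Type*} [Groupoid S] {A : S → Type*} [∀ s, Ring (A s)]
  [∀ s, Algebra K (A s)]

/-- The isomorphisms `tp s t γ : A s → A t` are the parallel transports of a local system of algebras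
on a base with the fundamental groupoid `S`, which preserve the gradings and the orientations. -/
structure IsTransport (gr : ∀ s, ℕ → Submodule K (A s)) (tr : ∀ s, A s →ₗ[K] K)
    (tp : ∀ s t : S, (s ⟶ t) → (A s ≃ₐ[K] A t)) : Prop where
  comp : ∀ (r s t : S) (α : r ⟶ s) (β : s ⟶ t) (a : A r), tp r t (α ≫ β) a =
    tp s t β (tp r s α a)
  gr_mem : ∀ (s t : S) (α : s ⟶ t) (i : ℕ), ∀ a ∈ gr s i, tp s t α a ∈ gr t i
  tr_eq : ∀ (s t : S) (α : s ⟶ t) (a : A s), tr t (tp s t α a) = tr s a

/-- The element `a` of `A s` is fixed by a subgroup of finite index of the fundamental group: it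
extends to a global section over a finite etale covering of the base. -/
def VirtInv (tp : ∀ s t : S, (s ⟶ t) → (A s ≃ₐ[K] A t)) (s : S) (a : A s) : Prop :=
  ∃ Δ : Subgroup (Aut s), Δ.FiniteIndex ∧ ∀ g ∈ Δ, tp s s g.hom a = a

/-- The point `η` is very general with respect to the sets `C s j` (the classes of algebraic cycles of
codimension `j` on the fibre over `s`): the parallel transports of the elements of `C η j` to all
other points are in `C`, and they are fixed by subgroups of finite index of the fundamental
group. -/
structure IsVeryGeneral (tp : ∀ s t : S, (s ⟶ t) → (A s ≃ₐ[K] A t)) (C : ∀ s, ℕ → Set (A s))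
    (η : S) : Prop where
  spread : ∀ (t : S) (α : η ⟶ t) (j : ℕ), ∀ c ∈ C η j, tp η t α c ∈ C t j
  finite : ∀ j, ∀ c ∈ C η j, VirtInv tp η c

/-- The fundamental group acts trivially on the elements of `C η j`. -/
def TrivialMonodromy (tp : ∀ s t : S, (s ⟶ t) → (A s ≃ₐ[K] A t)) (C : ∀ s, ℕ → Set (A s))
    (η : S) : Prop :=
  ∀ j, ∀ c ∈ C η j, ∀ g : Aut η, tp η η g.hom c = c

/-- Every subspace of `T` which is stable under a subgroup of finite index of the fundamental group
is `0` or `T`. -/
def IsIrred (tp : ∀ s t : S, (s ⟶ t) → (A s ≃ₐ[K] A t)) (η : S) (T : Submodule K (A η)) : Prop :=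
  ∀ Δ : Subgroup (Aut η), Δ.FiniteIndex → ∀ U ≤ T, (∀ g ∈ Δ, ∀ a ∈ U, tp η η g.hom a ∈ U) →
    U = ⊥ ∨ U = T

/-- The idempotent operators `P s` commute with the parallel transports and preserve the spaces `E s`
(the spans of the algebraic classes). -/
structure IsProjector (tp : ∀ s t : S, (s ⟶ t) → (A s ≃ₐ[K] A t)) (E : ∀ s, Submodule K (A s))
    (P : ∀ s, Module.End K (A s)) : Prop where
  idem : ∀ (s : S) (a : A s), P s (P s a) = P s a
  flat : ∀ (s t : S) (α : s ⟶ t) (a : A s), tp s t α (P s a) = P t (tp s t α a)
  alg : ∀ s, ∀ a ∈ E s, P s a ∈ E s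

/-- If a global section `φ` of the images of the operators `P s` is at one point the image of an
element of `E`, it is so at all points. -/
def QOneFor (tp : ∀ s t : S, (s ⟶ t) → (A s ≃ₐ[K] A t)) (E : ∀ s, Submodule K (A s))
    (P : ∀ s, Module.End K (A s)) : Prop :=
  ∀ φ : ∀ s, A s, (∀ (s t : S) (γ : s ⟶ t), tp s t γ (φ s) = φ t) → (∀ s, P s (φ s) = φ s) →
    ∀ o, φ o ∈ (E o).map (P o) → ∀ s, φ s ∈ (E s).map (P s)

/-- If an element `c` of the image of `E s` under `P s` is fixed by a subgroup of finite index of the
fundamental group, its parallel transports to `t`, along all paths, are in the image of `E t` under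
`P t`. -/
def QOneCoveringsFor (tp : ∀ s t : S, (s ⟶ t) → (A s ≃ₐ[K] A t)) (E : ∀ s, Submodule K (A s))
    (P : ∀ s, Module.End K (A s)) : Prop :=
  ∀ s, ∀ c ∈ (E s).map (P s), VirtInv tp s c →
    ∀ (t : S) (γ : s ⟶ t), tp s t γ c ∈ (E t).map (P t)

/-- The homomorphisms `p s` commute with the parallel transports. -/
def Commutes {B : S → Type*} [∀ s, Ring (B s)] [∀ s, Algebra K (B s)]
    (p : ∀ s, A s →ₐ[K] B s) (tp : ∀ s t : S, (s ⟶ t) → (A s ≃ₐ[K] A t))
    (tp' : ∀ s t : S, (s ⟶ t) → (B s ≃ₐ[K] B t)) : Prop :=
  ∀ (s t : S) (γ : s ⟶ t) (a : A s), tp' s t γ (p s a) = p t (tp s t γ a)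

/-- The images of the operators `P' s` are contained in the images of the idempotents `P s`. -/
def Contains (P P' : ∀ s, Module.End K (A s)) : Prop := ∀ s a, P s (P' s a) = P' s a

end Alg

section Alg

variable {K : Type*} [Field K] {A : Type*} [Ring A] [Algebra K A] {B : Type*} [Ring B]
  [Algebra K B] {C : Type*} [Ring C] [Algebra K C]

/-- The dimension of a subspace. -/
noncomputable def dimOf (T : Submodule K A) : ℕ := Module.finrank K T

/-- `f` acts on `T` by the Picard-Lefschetz formula `t ↦ t + c tr(δ t) δ`, where `c` and `δ ∈ T` are
not zero. -/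
def IsPicardLefschetz (tr : A →ₗ[K] K) (T : Submodule K A) (f : A ≃ₐ[K] A) : Prop :=
  ∃ δ ∈ T, δ ≠ 0 ∧ ∃ c : K, c ≠ 0 ∧ ∀ t ∈ T, f t = t + (c * tr (δ * t)) • δ

/-- `f` is the identity. -/
def Trivial (f : A ≃ₐ[K] A) : Prop := ∀ a, f a = a

/-- `f` is the identity on the image of `P`. -/
def TrivialOn (f : A ≃ₐ[K] A) (P : Module.End K A) : Prop := ∀ a, f (P a) = P a

/-- The operator `Q` is `1 ⊗ P`, for the homomorphisms `p` and `q` from the algebras `A` and `B` to
the algebra `C`. -/
def IsExternal (p : A →ₐ[K] C) (q : B →ₐ[K] C) (P : Module.End K B) (Q : Module.End K C) : Prop :=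
  ∀ a b, Q (p a * q b) = p a * q (P b)

end Alg

/-! ### Families of varieties -/

variable {k : Type u} [Field k] {𝒱 : VarClass k} {ops : CycleOps 𝒱}
  {W : WeilCohomology.{u, v} ops} {S : Type w} [Groupoid.{w'} S]

/-- Parallel transports between the cohomology algebras of the varieties `fib s`. -/
abbrev Transports (W : WeilCohomology.{u, v} ops) (fib : S → 𝒱.Obj) : Type (max w w' v) :=
  ∀ s t : S, (s ⟶ t) → (W.H (fib s) ≃ₐ[W.K] W.H (fib t))

/-- Operators on the cohomology of the varieties `fib s`. -/
abbrev Operators (W : WeilCohomology.{u, v} ops) (fib : S → 𝒱.Obj) : Type (max w v) :=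
  ∀ s : S, Module.End W.K (W.H (fib s))

/-- `tp` are the parallel transports of a local system of graded algebras with orientations. -/
def Transports.IsParallel {fib : S → 𝒱.Obj} (tp : Transports W fib) : Prop :=
  IsTransport (fun s => W.gr (fib s)) (fun s => W.tr (fib s)) tp

/-- The operators are idempotent, commute with the parallel transports and preserve the spaces of
algebraic classes. -/
def Operators.IsProjection {fib : S → 𝒱.Obj} (P : Operators W fib) (tp : Transports W fib) :
    Prop :=
  IsProjector tp (fun s => algSpan W (fib s)) P

/-- A family of varieties over a base with the fundamental groupoid `S`: the fibres, and the parallel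
transports between the cohomology algebras of the fibres. -/
structure Family (W : WeilCohomology.{u, v} ops) (S : Type w) [Groupoid.{w'} S] where
  /-- the fibres -/
  fib : S → 𝒱.Obj
  /-- the parallel transports -/
  tp : Transports W fib
  isParallel : tp.IsParallel

/-- An admissible subcategory, linear over the base, of the category of perfect complexes on a
family, given by the operators on the cohomology of the fibres which are induced by the projection
functors. -/
structure LinearCat (W : WeilCohomology.{u, v} ops) (S : Type w) [Groupoid.{w'} S] where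
  /-- the family -/
  fam : Family W S
  /-- the projectors -/
  P : Operators W fam.fib
  isProjection : P.IsProjection fam.tp

/-- **The statement of Q1 for the subcategory over the base**: if a global section of its
topological K-theory is algebraic at one point, it is algebraic at all points. -/
def LinearCat.QOne (D : LinearCat W S) : Prop :=
  QOneFor D.fam.tp (fun s => algSpan W (D.fam.fib s)) D.P

/-- **The statement of Q1 for the subcategory over all finite etale coverings of the base.** -/
def LinearCat.QOneCoverings (D : LinearCat W S) : Prop :=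
  QOneCoveringsFor D.fam.tp (fun s => algSpan W (D.fam.fib s)) D.P

/-- `E` is an admissible subcategory of `D`, linear over the base: both are given by projectors of the
cohomology of the same family, and the image of the projector of `E` is contained in the image of the
projector of `D`. -/
inductive IsSubcategory (D : LinearCat W S) : LinearCat W S → Prop
  | mk (P : Operators W D.fam.fib) (h : P.IsProjection D.fam.tp) :
      Contains D.P P → IsSubcategory D ⟨D.fam, P, h⟩

/-- The product of the fibres over `s`. -/
noncomputable def Family.prodFib (X Y : Family W S) (s : S) : 𝒱.Obj :=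
  (X.fib s).prod (Y.fib s)

/-- The pull-back along the first projection. -/
noncomputable def Family.pullFst (X Y : Family W S) (s : S) :
    W.H (X.fib s) →ₐ[W.K] W.H (X.prodFib Y s) :=
  W.map (fst (X.fib s) (Y.fib s))

/-- The pull-back along the second projection. -/
noncomputable def Family.pullSnd (X Y : Family W S) (s : S) :
    W.H (Y.fib s) →ₐ[W.K] W.H (X.prodFib Y s) :=
  W.map (snd (X.fib s) (Y.fib s))

/-- `tp` are the parallel transports of the fibre product of the families `X` and `Y`. -/
structure IsProduct (X Y : Family W S) (tp : Transports W (X.prodFib Y)) : Prop where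
  parallel : tp.IsParallel
  fst : Commutes (X.pullFst Y) X.tp tp
  snd : Commutes (X.pullSnd Y) Y.tp tp

/-- `Y` is the fibre product of `n + 1` copies of the family `X`. -/
inductive IsPower (X : Family W S) : ℕ → Family W S → Prop
  | one : IsPower X 0 X
  | succ {n Y} (tp : Transports W (X.prodFib Y)) (h : IsProduct X Y tp) : IsPower X n Y →
      IsPower X (n + 1) ⟨X.prodFib Y, tp, h.parallel⟩

/-- `D'` is the category `D_perf(Y) ⊠ D` in the category of perfect complexes on the fibre product of
the family `Y` and of the family of `D`: the operator on the cohomology of the fibres is `1 ⊗ P`,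
where `P` is the operator of `D`. -/
inductive IsBox (Y : Family W S) (D : LinearCat W S) : LinearCat W S → Prop
  | mk (tp : Transports W (Y.prodFib D.fam)) (h : IsProduct Y D.fam tp)
      (P : Operators W (Y.prodFib D.fam)) (hP : P.IsProjection tp) :
      (∀ s, IsExternal (Y.pullFst D.fam s) (Y.pullSnd D.fam s) (D.P s) (P s)) →
      IsBox Y D ⟨⟨Y.prodFib D.fam, tp, h.parallel⟩, P, hP⟩

/-- The transcendental cohomology of the fibre over `η`. -/
noncomputable def Family.trans (X : Family W S) (η : S) : Submodule W.K (W.H (X.fib η)) :=
  transcendental W (X.fib η)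

/-- The categories `D_perf(X_1 ^ (n_1)) ⊠ (D_perf(X_2 ^ (n_2)) ⊠ ( ⋯ ⊠ D))`, where the `X_i` are
pairwise different members of the collection `X` (`T` is the set of the indices which are used) and
`n_i` is less than the dimension of the transcendental cohomology of the fibre of `X_i` over `η`,
if the dimension of this fibre is even. -/
inductive Tower {ι : Type} (X : ι → Family W S) (D : LinearCat W S) (η : S) :
    Set ι → LinearCat W S → Prop
  | base : Tower X D η ∅ D
  | step {T D₁ D₂ Y} (i : ι) (n : ℕ) : Tower X D η T D₁ → i ∉ T →
      (Even ((X i).fib η).dim → n + 1 < dimOf ((X i).trans η)) →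
      IsPower (X i) n Y → IsBox Y D₁ D₂ → Tower X D η (insert i T) D₂

/-- `η` is a very general point for the family `Y`. -/
def Family.VeryGeneral (Y : Family W S) (η : S) : Prop :=
  IsVeryGeneral Y.tp (fun s => algClasses W (Y.fib s)) η

/-- The fundamental group acts trivially on the classes of the algebraic cycles on the fibre over
`η`. -/
def Family.TrivialOnCycles (Y : Family W S) (η : S) : Prop :=
  TrivialMonodromy Y.tp (fun s => algClasses W (Y.fib s)) η

/-- The loop `g` acts on the transcendental cohomology of the fibre over `η` by a Picard-Lefschetz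
formula. -/
def Family.IsNodeLoop (X : Family W S) (η : S) (g : Aut η) : Prop :=
  IsPicardLefschetz (W.tr (X.fib η)) (X.trans η) (X.tp η η g.hom)

/-- The loop `g` acts trivially on the cohomology of the fibre over `η`. -/
def Family.IsTrivialLoop (X : Family W S) (η : S) (g : Aut η) : Prop :=
  Trivial (X.tp η η g.hom)

/-- The loop `g` acts trivially on the topological K-theory of the fibre over `η`. -/
def LinearCat.IsTrivialLoop (D : LinearCat W S) (η : S) (g : Aut η) : Prop :=
  TrivialOn (D.fam.tp η η g.hom) (D.P η)

/-- The transcendental cohomology of the fibre over `η` is in the middle degree. -/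
def Family.TransMiddle (X : Family W S) (η : S) : Prop :=
  X.trans η ≤ W.gr (X.fib η) (X.fib η).dim

/-- The transcendental cohomology of the fibre over `η` is irreducible under all subgroups of finite
index of the fundamental group. -/
def Family.TransIrreducible (X : Family W S) (η : S) : Prop :=
  IsIrred X.tp η (X.trans η)

/-- The hypotheses on the families `X i`, relative to the subcategory `D`:
the base is connected; for all powers `Y` of the `X i` the point `η` is very general, and homological
and numerical equivalence coincide for the cycles on the fibre of `Y` over `η`; the transcendental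
cohomology of the fibre of `X i` over `η` is in the middle degree and irreducible under all subgroups
of finite index of the fundamental group; there is a loop which acts on it by a Picard-Lefschetz
formula and trivially on the cohomology of the fibres over `η` of the other `X j` and on the
topological K-theory of the fibre of `D` over `η`; if some `X i` has even relative dimension, the
coefficient field contains only finitely many `ζ + ζ⁻¹`, `ζ` a root of unity. -/
structure NodalSystem {ι : Type} (X : ι → Family W S) (D : LinearCat W S) (η : S) : Prop where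
  connected : ∀ s : S, Nonempty (η ⟶ s)
  general : ∀ i m Y, IsPower (X i) m Y → Y.VeryGeneral η
  homEqNum : ∀ i m Y, IsPower (X i) m Y → HomEqNum W (Y.fib η)
  middle : ∀ i, (X i).TransMiddle η
  irreducible : ∀ i, (X i).TransIrreducible η
  node : ∀ i, ∃ g : Aut η, (X i).IsNodeLoop η g ∧ (∀ j, j ≠ i → (X j).IsTrivialLoop η g) ∧
    D.IsTrivialLoop η g
  few : (∃ i, Even ((X i).fib η).dim) → FewRoots W.K

end Pool.Agent.K3h96.VH
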