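import Pool.Agent.K3h96.VH.Sub
import Pool.Agent.K3h96.VH.Defs

/-!
# Q1 for products: the transport of the components
-/

open CategoryTheory AlgebraicGeometry Finset

set_option linter.unusedSectionVars false

universe u v w w'

namespace Pool.Agent.K3h96.VH

open Pool.Agent.H914 Pool.Agent.H914.VarClass Pool.Agent.H914.VarClass.Obj
  Pool.Agent.H914.WeilCohomology Pool.Agent.H281R3.HT Pool.Agent.W552 Pool.Agent.TH125.Gal

/-! ### Local systems -/

section Alg

variable {K : Type*} [Field K] {S : Type*} [Groupoid S] {A : S → Type*} [∀ s, Ring (A s)]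
  [∀ s, Algebra K (A s)] {gr : ∀ s, ℕ → Submodule K (A s)} {tr : ∀ s, A s →ₗ[K] K}
  {tp : ∀ s t : S, (s ⟶ t) → (A s ≃ₐ[K] A t)}

theorem tp_id (h : IsTransport gr tr tp) (s : S) (a : A s) : tp s s (𝟙 s) a = a := by
  have h1 := h.comp s s s (𝟙 s) (𝟙 s) a
  rw [Category.comp_id] at h1
  exact ((tp s s (𝟙 s)).injective h1).symm

theorem tp_inv (h : IsTransport gr tr tp) {s t : S} (α : s ⟶ t) (a : A t) :
    tp s t α (tp t s (Groupoid.inv α) a) = a := by
  rw [← h.comp, Groupoid.inv_comp, tp_id h]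

/-- the monodromy action -/
noncomputable def act (h : IsTransport gr tr tp) (s : S) : Aut s →* (A s ≃ₐ[K] A s) where
  toFun g := tp s s g.hom
  map_one' := AlgEquiv.ext fun a => tp_id h s a
  map_mul' g g' := AlgEquiv.ext fun a => h.comp s s s g'.hom g.hom a

/-- the conjugation of the fundamental groups along a path -/
noncomputable def conj {s t : S} (α : s ⟶ t) : Aut t →* Aut s where
  toFun g := (Groupoid.isoEquivHom s s).symm (α ≫ g.hom ≫ Groupoid.inv α)
  map_one' := by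
    apply Iso.ext
    change α ≫ 𝟙 t ≫ Groupoid.inv α = 𝟙 s
    rw [Category.id_comp, Groupoid.comp_inv]
  map_mul' g g' := by
    apply Iso.ext
    change α ≫ (g'.hom ≫ g.hom) ≫ Groupoid.inv α =
      (α ≫ g'.hom ≫ Groupoid.inv α) ≫ (α ≫ g.hom ≫ Groupoid.inv α)
    simp only [Category.assoc]
    rw [← Category.assoc (Groupoid.inv α) α, Groupoid.inv_comp, Category.id_comp]

/-- A class which is fixed by a subgroup of finite index, which is the whole group if `q` holds. -/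
def FQ (q : Prop) (tp : ∀ s t : S, (s ⟶ t) → (A s ≃ₐ[K] A t)) (s : S) (a : A s) : Prop :=
  ∃ Δ : Subgroup (Aut s), Δ.FiniteIndex ∧ (q → Δ = ⊤) ∧ ∀ g ∈ Δ, tp s s g.hom a = a

variable {q : Prop}

theorem fq_false {s : S} {a : A s} : FQ False tp s a ↔ VirtInv tp s a :=
  ⟨fun ⟨Δ, h1, _, h2⟩ => ⟨Δ, h1, h2⟩, fun ⟨Δ, h1, h2⟩ => ⟨Δ, h1, fun h => h.elim, h2⟩⟩

theorem fq_true {s : S} {a : A s} : FQ True tp s a ↔ ∀ g : Aut s, tp s s g.hom a = a := by
  constructor
  · rintro ⟨Δ, h1, h2, h3⟩ g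
    exact h3 g (by rw [h2 trivial]; exact Subgroup.mem_top g)
  · intro h
    exact ⟨⊤, inferInstance, fun _ => rfl, fun g _ => h g⟩

theorem FQ.fi {s : S} {a : A s} (h : FQ q tp s a) : VirtInv tp s a := by
  obtain ⟨Δ, h1, _, h2⟩ := h
  exact ⟨Δ, h1, h2⟩

theorem FQ.along (hT : IsTransport gr tr tp) {s t : S} (α : s ⟶ t) {a : A s}
    (h : FQ q tp s a) : FQ q tp t (tp s t α a) := by
  obtain ⟨Δ, hΔ, hq, h⟩ := h
  refine ⟨Δ.comap (conj α), ⟨by
    rw [Subgroup.index_comap]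
    exact (inferInstance : (Δ.subgroupOf (conj α).range).FiniteIndex).index_ne_zero⟩,
    fun h' => by rw [hq h']; rfl, fun g hg => ?_⟩
  have h1 := h _ hg
  change tp s s (α ≫ g.hom ≫ Groupoid.inv α) a = a at h1
  rw [hT.comp s t s, hT.comp t t s] at h1
  have h2 := congrArg (tp s t α) h1
  rwa [tp_inv hT] at h2

theorem FQ.zero {s : S} : FQ q tp s (0 : A s) :=
  ⟨⊤, inferInstance, fun _ => rfl, fun _ _ => map_zero _⟩

theorem FQ.add {s : S} {x y : A s} (hx : FQ q tp s x) (hy : FQ q tp s y) :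
    FQ q tp s (x + y) := by
  obtain ⟨Δ, hΔ, hq, hx⟩ := hx
  obtain ⟨Δ', hΔ', hq', hy⟩ := hy
  exact ⟨Δ ⊓ Δ', inferInstance, fun h => by rw [hq h, hq' h]; exact inf_top_eq _,
    fun g hg => by rw [map_add, hx g hg.1, hy g hg.2]⟩

theorem FQ.smul {s : S} (r : K) {x : A s} (hx : FQ q tp s x) : FQ q tp s (r • x) := by
  obtain ⟨Δ, hΔ, hq, hx⟩ := hx
  exact ⟨Δ, hΔ, hq, fun g hg => by rw [map_smul, hx g hg]⟩

variable {E : ∀ s, Submodule K (A s)} {P : ∀ s, Module.End K (A s)}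

theorem mem_map_iff (hP : IsProjector tp E P) {s : S} {a : A s} :
    a ∈ (E s).map (P s) ↔ a ∈ E s ∧ P s a = a := by
  constructor
  · rintro ⟨b, hb, rfl⟩
    exact ⟨hP.alg s b hb, hP.idem s b⟩
  · rintro ⟨h1, h2⟩
    exact ⟨a, h1, h2⟩

/-- the statement with a parameter -/
def VQ (q : Prop) (tp : ∀ s t : S, (s ⟶ t) → (A s ≃ₐ[K] A t)) (E : ∀ s, Submodule K (A s))
    (P : ∀ s, Module.End K (A s)) : Prop :=
  ∀ (s : S) (c : A s), c ∈ E s → P s c = c → FQ q tp s c →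
    ∀ (t : S) (γ : s ⟶ t), tp s t γ c ∈ E t

theorem vq_false (hP : IsProjector tp E P) : VQ False tp E P ↔ QOneCoveringsFor tp E P := by
  constructor
  · intro h s c hc hI t γ
    obtain ⟨h1, h2⟩ := (mem_map_iff hP).1 hc
    refine (mem_map_iff hP).2 ⟨h s c h1 h2 (fq_false.2 hI) t γ, ?_⟩
    rw [← hP.flat, h2]
  · intro h s c h1 h2 hI t γ
    exact ((mem_map_iff hP).1 (h s c ((mem_map_iff hP).2 ⟨h1, h2⟩) (fq_false.1 hI) t γ)).1

theorem vq_true (hT : IsTransport gr tr tp) (hP : IsProjector tp E P)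
    (hconn : ∀ s t : S, Nonempty (s ⟶ t)) : VQ True tp E P ↔ QOneFor tp E P := by
  constructor
  · intro h φ hφ hPφ o ho s
    obtain ⟨γ⟩ := hconn o s
    refine (mem_map_iff hP).2 ⟨?_, hPφ s⟩
    rw [← hφ o s γ]
    exact h o (φ o) ((mem_map_iff hP).1 ho).1 (hPφ o) (fq_true.2 fun g => hφ o o g.hom) s γ
  · intro h s c hc hPc hI t γ
    rw [fq_true] at hI
    obtain ⟨p⟩ : Nonempty (∀ t : S, s ⟶ t) := ⟨fun t => (hconn s t).some⟩
    have hind : ∀ (t : S) (α β : s ⟶ t), tp s t α c = tp s t β c := by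
      intro t α β
      have h1 := hI ((Groupoid.isoEquivHom s s).symm (α ≫ Groupoid.inv β))
      change tp s s (α ≫ Groupoid.inv β) c = c at h1
      rw [hT.comp s t s] at h1
      have h2 := congrArg (tp s t β) h1
      rwa [tp_inv hT] at h2
    have h1 := h (fun t => tp s t (p t) c) ?_ ?_ s ?_ t
    · have h2 := ((mem_map_iff hP).1 h1).1
      rwa [hind t (p t) γ] at h2
    · intro t t' γ'
      rw [← hT.comp]
      exact hind t' _ _
    · intro t
      rw [← hP.flat, hPc]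
    · refine (mem_map_iff hP).2 ⟨?_, ?_⟩
      · rw [hind s (p s) (𝟙 s), tp_id hT]
        exact hc
      · rw [← hP.flat, hPc]

theorem VQ.mono (h : VQ False tp E P) : VQ q tp E P := by
  intro s c hc hPc hI
  exact h s c hc hPc (fq_false.2 hI.fi)

theorem VQ.sub {P' : ∀ s, Module.End K (A s)} (hP' : Contains P P') (h : VQ q tp E P) :
    VQ q tp E P' := by
  intro s c hc hPc hI
  refine h s c hc ?_ hI
  have h1 := hP' s c
  rwa [hPc] at h1

end Alg

/-! ### Products of families -/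

variable {k : Type u} [Field k] {𝒱 : VarClass k} {ops : CycleOps 𝒱}
  {W : WeilCohomology.{u, v} ops} {S : Type w} [Groupoid.{w'} S]

theorem algSpan_ind {X : 𝒱.Obj} {p : W.H X → Prop} (h1 : ∀ j, ∀ c ∈ algClasses W X j, p c)
    (h0 : p 0) (ha : ∀ x y, p x → p y → p (x + y)) (hs : ∀ (r : W.K) x, p x → p (r • x))
    {c : W.H X} (hc : c ∈ algSpan W X) : p c := by
  induction hc using Submodule.span_induction with
  | mem c hc =>
    obtain ⟨j, hj⟩ := Set.mem_iUnion.1 hc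
    exact h1 j c hj
  | zero => exact h0
  | add x y _ _ hx hy => exact ha x y hx hy
  | smul r x _ hx => exact hs r x hx

section

variable {A Z : S → 𝒱.Obj} {tA : ∀ s t : S, (s ⟶ t) → (W.H (A s) ≃ₐ[W.K] W.H (A t))}
  {tZ : ∀ s t : S, (s ⟶ t) → (W.H (Z s) ≃ₐ[W.K] W.H (Z t))}
  {tY : ∀ s t : S, (s ⟶ t) → (W.H ((A s).prod (Z s)) ≃ₐ[W.K] W.H ((A t).prod (Z t)))}
  (hA : IsTransport (fun s => W.gr (A s)) (fun s => W.tr (A s)) tA)
  (hZ : IsTransport (fun s => W.gr (Z s)) (fun s => W.tr (Z s)) tZ)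
  (hY : IsTransport (fun s => W.gr ((A s).prod (Z s))) (fun s => W.tr ((A s).prod (Z s))) tY)
  (hfst : ∀ s t γ a, tY s t γ (W.map (fst (A s) (Z s)) a) =
    W.map (fst (A t) (Z t)) (tA s t γ a))
  (hsnd : ∀ s t γ a, tY s t γ (W.map (snd (A s) (Z s)) a) =
    W.map (snd (A t) (Z t)) (tZ s t γ a))

include hfst hsnd in
theorem tY_ext (s t : S) (γ : s ⟶ t) (a : W.H (A s)) (b : W.H (Z s)) :
    tY s t γ (W.map (fst (A s) (Z s)) a * W.map (snd (A s) (Z s)) b) =
      W.map (fst (A t) (Z t)) (tA s t γ a) * W.map (snd (A t) (Z t)) (tZ s t γ b) := by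
  rw [map_mul, hfst, hsnd]

include hA hfst hsnd in
theorem tp_cn (s t : S) (γ : s ⟶ t) (u : W.H (A s)) (c : W.H ((A s).prod (Z s))) :
    tZ s t γ (cn u c) = cn (tA s t γ u) (tY s t γ c) := by
  refine kun_ext (L := fun c => tZ s t γ (cn u c))
    (L' := fun c => cn (tA s t γ u) (tY s t γ c)) ?_ ?_ ?_ c
  · intro a b
    rw [cn_add, map_add]
  · intro a b
    rw [map_add, cn_add]
  · intro a z
    have h1 := hA.tr_eq s t γ (u * a)
    beta_reduce at h1
    rw [cn_ext, tY_ext hfst hsnd, cn_ext, map_smul, ← map_mul, h1]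

variable {P : ∀ s, Module.End W.K (W.H (Z s))}
  {Q : ∀ s, Module.End W.K (W.H ((A s).prod (Z s)))}
  (hbox : ∀ s a b, Q s (W.map (fst (A s) (Z s)) a * W.map (snd (A s) (Z s)) b) =
    W.map (fst (A s) (Z s)) a * W.map (snd (A s) (Z s)) (P s b))

include hbox in
theorem cn_box (s : S) (u : W.H (A s)) (c : W.H ((A s).prod (Z s))) :
    cn u (Q s c) = P s (cn u c) := by
  refine kun_ext (L := fun c => cn u (Q s c)) (L' := fun c => P s (cn u c)) ?_ ?_ ?_ c
  · intro a b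
    rw [map_add, cn_add]
  · intro a b
    rw [cn_add, map_add]
  · intro a z
    rw [hbox, cn_ext, cn_ext, map_smul]

include hbox in
theorem ctr_box (s : S) (φ : W.H (A s) →ₗ[W.K] W.K) (c : W.H ((A s).prod (Z s))) :
    ctr φ (Q s c) = P s (ctr φ c) := by
  refine kun_ext (L := fun c => ctr φ (Q s c)) (L' := fun c => P s (ctr φ c)) ?_ ?_ ?_ c
  · intro a b
    rw [map_add, map_add]
  · intro a b
    rw [map_add, map_add]
  · intro a z
    rw [hbox, ctr_apply, ctr_apply, map_smul]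

include hA hfst hsnd in
theorem cn_FQ {q : Prop} {η : S} {c : W.H ((A η).prod (Z η))} (hc : FQ q tY η c)
    {u : W.H (A η)} (hu : FQ q tA η u) : FQ q tZ η (cn u c) := by
  obtain ⟨Δ, hΔ, hq, h1⟩ := hc
  obtain ⟨Δ', hΔ', hq', h2⟩ := hu
  refine ⟨Δ ⊓ Δ', inferInstance, fun h => by rw [hq h, hq' h]; exact inf_top_eq _,
    fun g hg => ?_⟩
  rw [tp_cn hA hfst hsnd, h2 g hg.2, h1 g hg.1]

/-- the expansions of the invariant classes in algebraic classes of the first factor -/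
def Expands (tY : ∀ s t : S, (s ⟶ t) → (W.H ((A s).prod (Z s)) ≃ₐ[W.K] W.H ((A t).prod (Z t))))
    (Q : ∀ s, Module.End W.K (W.H ((A s).prod (Z s)))) (η : S) : Prop :=
  ∃ (N : ℕ) (e u : Fin N → W.H (A η)), (∀ l, e l ∈ algSpan W (A η)) ∧
    (∀ l, u l ∈ algSpan W (A η)) ∧ ∀ c : W.H ((A η).prod (Z η)), Q η c = c → VirtInv tY η c →
      c = ∑ l, W.map (fst (A η) (Z η)) (e l) * W.map (snd (A η) (Z η)) (cn (u l) c)

variable {η : S} {q : Prop}

include hA hZ hY hfst hsnd hbox in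
/-- **Q1 for a category implies Q1 for the product.** -/
theorem vq_box (hconn : ∀ s : S, Nonempty (η ⟶ s))
    (hgen : IsVeryGeneral tA (fun s => algClasses W (A s)) η)
    (hq : ∀ j, ∀ c ∈ algClasses W (A η) j, FQ q tA η c)
    (hE : Expands tY Q η) (hP : IsProjector tZ (fun s => algSpan W (Z s)) P)
    (hQ : IsProjector tY (fun s => algSpan W ((A s).prod (Z s))) Q)
    (hV : VQ q tZ (fun s => algSpan W (Z s)) P) :
    VQ q tY (fun s => algSpan W ((A s).prod (Z s))) Q := by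
  intro s c hcalg hcP hcI t γ
  obtain ⟨β⟩ := hconn s
  obtain ⟨N, e, u, he, hu, hexp⟩ := hE
  have hspread : ∀ (t : S) (α : η ⟶ t) (c : W.H (A η)), c ∈ algSpan W (A η) →
      tA η t α c ∈ algSpan W (A t) := by
    intro t α c hc
    refine algSpan_ind (p := fun c => tA η t α c ∈ algSpan W (A t))
      (fun j c hc => alg_mem (hgen.spread t α j c hc)) ?_ ?_ ?_ hc
    · rw [map_zero]; exact Submodule.zero_mem _
    · intro x y hx hy
      rw [map_add]; exact Submodule.add_mem _ hx hy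
    · intro r x hx
      rw [map_smul]; exact Submodule.smul_mem _ _ hx
  -- transport to the very general point
  obtain ⟨cη, hβ, h1, h2⟩ : ∃ cη : W.H ((A η).prod (Z η)),
      tY η s β cη = c ∧ Q η cη = cη ∧ FQ q tY η cη := by
    refine ⟨tY s η (Groupoid.inv β) c, tp_inv hY β c, ?_, hcI.along hY (Groupoid.inv β)⟩
    rw [← hQ.flat, hcP]
  have h3 := hexp cη h1 h2.fi
  -- the components
  have hcomp : ∀ l, tZ s t γ (tZ η s β (cn (u l) cη)) ∈ algSpan W (Z t) := by
    intro l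
    refine hV s _ ?_ ?_ ?_ t γ
    · beta_reduce
      rw [tp_cn hA hfst hsnd, hβ]
      exact algSpan_push _ (algSpan_mul (algSpan_map _ (hspread s β _ (hu l))) hcalg)
    · rw [← hP.flat, ← cn_box hbox, h1]
    · exact (cn_FQ hA hfst hsnd h2 (algSpan_ind (p := fun c => FQ q tA η c) hq FQ.zero
        (fun x y => FQ.add) (fun r x => FQ.smul r) (hu l))).along hZ β
  have h6 : tY s t γ c = ∑ l, W.map (fst (A t) (Z t)) (tA η t (β ≫ γ) (e l)) *
      W.map (snd (A t) (Z t)) (tZ s t γ (tZ η s β (cn (u l) cη))) := by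
    rw [← hβ, ← hY.comp]
    conv_lhs => rw [h3]
    rw [map_sum]
    refine Finset.sum_congr rfl fun l _ => ?_
    rw [← hZ.comp, tY_ext hfst hsnd]
  beta_reduce
  rw [h6]
  exact Submodule.sum_mem _ fun l _ => algSpan_mul
    (algSpan_map _ (hspread t (β ≫ γ) _ (he l))) (algSpan_map _ (hcomp l))

include hA hsnd hbox in
/-- **The converse.** -/
theorem vq_factor (hconn : ∀ s : S, Nonempty (η ⟶ s))
    (hgen : IsVeryGeneral tA (fun s => algClasses W (A s)) η)
    (hpt : ∃ j, ∃ a ∈ algClasses W (A η) j, W.tr (A η) a ≠ 0)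
    (hV : VQ q tY (fun s => algSpan W ((A s).prod (Z s))) Q) :
    VQ q tZ (fun s => algSpan W (Z s)) P := by
  intro s c hcalg hcP hcI t γ
  have h1 := hV s (W.map (snd (A s) (Z s)) c) (algSpan_map _ hcalg) ?_ ?_ t γ
  · beta_reduce at h1
    rw [hsnd] at h1
    obtain ⟨j, a, ha, ha0⟩ := hpt
    obtain ⟨β⟩ := hconn t
    have h5 : W.push (snd (A t) (Z t)) (W.map (fst (A t) (Z t)) (tA η t β a) *
        W.map (snd (A t) (Z t)) (tZ s t γ c)) ∈ algSpan W (Z t) :=
      algSpan_push _ (algSpan_mul (algSpan_map _ (alg_mem (hgen.spread t β j a ha))) h1)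
    have h7 := hA.tr_eq η t β a
    beta_reduce at h7
    rw [W.push_snd, h7] at h5
    have h6 := Submodule.smul_mem _ (W.tr (A η) a)⁻¹ h5
    rwa [smul_smul, inv_mul_cancel₀ ha0, one_smul] at h6
  · have h7 := hbox s 1 c
    rw [map_one, one_mul, one_mul, hcP] at h7
    exact h7
  · obtain ⟨Δ, hΔ, hq, h8⟩ := hcI
    exact ⟨Δ, hΔ, hq, fun g hg => by rw [hsnd, h8 g hg]⟩

end

end Pool.Agent.K3h96.VH
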