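import Pool.Agent.K3h96.VH.Core

/-!
# Q1 for products with nodal families
-/

open CategoryTheory AlgebraicGeometry Finset

set_option linter.unusedSectionVars false

universe u v w w'

namespace Pool.Agent.K3h96.VH

open Pool.Agent.H914 Pool.Agent.H914.VarClass Pool.Agent.H914.VarClass.Obj
  Pool.Agent.H914.WeilCohomology Pool.Agent.H281R3.HT Pool.Agent.W552 Pool.Agent.TH125.Gal

variable {k : Type u} [Field k] {𝒱 : VarClass k} {ops : CycleOps 𝒱}
  {W : WeilCohomology.{u, v} ops} {S : Type w} [Groupoid.{w'} S]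

/-- the variety with the divisor zero -/
noncomputable abbrev pz (X : 𝒱.Obj) : Polarized 𝒱 := ⟨X, 0⟩

/-- the powers -/
noncomputable abbrev Pw (ops : CycleOps 𝒱) (X : S → 𝒱.Obj) (n : ℕ) (s : S) : 𝒱.Obj :=
  (nest ops n fun _ => pz (X s)).X

theorem isPower_nest {X : Family W S} {n : ℕ} {Y : Family W S} (h : IsPower X n Y) :
    ∃ (tp : Transports W (Pw ops X.fib n)) (hp : tp.IsParallel),
      (∀ (p : Fin (n + 1)) (s t : S) (γ : s ⟶ t) (a : W.H (X.fib s)),
        tp s t γ (W.map (prj ops n (fun _ => pz (X.fib s)) p) a) =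
          W.map (prj ops n (fun _ => pz (X.fib t)) p) (X.tp s t γ a)) ∧
      Y = ⟨Pw ops X.fib n, tp, hp⟩ := by
  induction h with
  | one =>
    refine ⟨X.tp, X.isParallel, fun p s t γ a => ?_, rfl⟩
    obtain rfl : p = 0 := Fin.eq_zero p
    have h1 : ∀ (s : S) (a : W.H (X.fib s)),
        W.map (prj ops 0 (fun _ => pz (X.fib s)) 0) a = a := fun s a => W.map_id (X.fib s) a
    exact (congrArg (X.tp s t γ) (h1 s a)).trans (h1 t _).symm
  | @succ n Y tp hp _ ih =>
    obtain ⟨tpn, hpn, hcomp, rfl⟩ := ih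
    refine ⟨tp, hp.parallel, fun p s t γ a => ?_, rfl⟩
    refine Fin.cases ?_ (fun i => ?_) p
    · exact hp.fst s t γ a
    · have h4 : ∀ (s : S) (a : W.H (X.fib s)),
          W.map (prj ops (n + 1) (fun _ => pz (X.fib s)) i.succ) a =
          W.map (snd (X.fib s) (nest ops n fun _ => pz (X.fib s)).X)
            (W.map (prj ops n (fun _ => pz (X.fib s)) i) a) :=
        fun s a => W.map_comp _ _ a
      have h5 := hp.snd s t γ (W.map (prj ops n (fun _ => pz (X.fib s)) i) a)
      have h6 := hcomp i s t γ a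
      exact (congrArg (tp s t γ) (h4 s a)).trans
        (h5.trans ((congrArg _ h6).trans (h4 t _).symm))

theorem tgt_lspan' {P : Polarized 𝒱} {m : ℕ} {s : SB W P.X} (hDX : HomEqNum W P.X)
    (hmid : transcendental W P.X ≤ W.gr P.X P.X.dim) {Z : 𝒱.Obj}
    {c : W.H ((nest ops m fun _ => P).X.prod Z)} (hc : c ∈ Tgt s m Z) :
    c ∈ LSpan W (nest ops m fun _ => P).X Z := by
  refine Submodule.span_mono ?_ hc
  rintro c ⟨S, i, m, w, hm, rfl⟩
  exact ⟨m, hm.alg hDX hmid, w, rfl⟩

/-- expansion in dual bases of the algebraic classes -/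
theorem lspan_dual {A B : 𝒱.Obj} (s : SB W A) {c : W.H (A.prod B)} (hc : c ∈ LSpan W A B) :
    c = ∑ l, W.map (fst A B) (s.uC l : W.H A) * W.map (snd A B) (cn (s.bC l : W.H A) c) := by
  induction hc using Submodule.span_induction with
  | mem c hc =>
    obtain ⟨a, ha, b, rfl⟩ := hc
    have h1 : W.map (fst A B) a = ∑ l, bil W A (s.bC l) a •
        W.map (fst A B) (s.uC l : W.H A) := by
      conv_lhs => rw [expand_uC s ha]
      rw [map_sum]
      simp only [map_smul]
    conv_lhs => rw [h1, Finset.sum_mul]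
    refine Finset.sum_congr rfl fun l _ => ?_
    rw [cn_ext, ← bil_apply, map_smul, mul_smul_comm, smul_mul_assoc]
  | zero => simp [cn]
  | add x y _ _ hx hy =>
    conv_lhs => rw [hx, hy]
    rw [← Finset.sum_add_distrib]
    refine Finset.sum_congr rfl fun l _ => ?_
    rw [cn_add, map_add, mul_add]
  | smul r x _ hx =>
    conv_lhs => rw [hx]
    rw [Finset.smul_sum]
    refine Finset.sum_congr rfl fun l _ => ?_
    rw [cn_smul, map_smul, mul_smul_comm]

section

variable {X : Family W S} {n : ℕ} {η : S} {Z : S → 𝒱.Obj}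
  {tA : ∀ s t : S, (s ⟶ t) → (W.H (Pw ops X.fib n s) ≃ₐ[W.K] W.H (Pw ops X.fib n t))}
  {tZ : ∀ s t : S, (s ⟶ t) → (W.H (Z s) ≃ₐ[W.K] W.H (Z t))}
  {tY : ∀ s t : S, (s ⟶ t) → (W.H ((Pw ops X.fib n s).prod (Z s)) ≃ₐ[W.K]
    W.H ((Pw ops X.fib n t).prod (Z t)))}
  {P : ∀ s, Module.End W.K (W.H (Z s))}
  {Q : ∀ s, Module.End W.K (W.H ((Pw ops X.fib n s).prod (Z s)))}

/-- **The expansion of the invariant classes.** -/
theorem expands (hDX : HomEqNum W (X.fib η)) (hDP : HomEqNum W (Pw ops X.fib n η))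
    (hmid : X.TransMiddle η) (hirr : X.TransIrreducible η) {g : Aut η}
    (hPL : X.IsNodeLoop η g) (hgen : X.VeryGeneral η)
    (hK : Even (X.fib η).dim → FewRoots W.K ∧ n + 1 < dimOf (X.trans η))
    (hZ : IsTransport (fun s => W.gr (Z s)) (fun s => W.tr (Z s)) tZ)
    (hY : IsTransport (fun s => W.gr ((Pw ops X.fib n s).prod (Z s)))
      (fun s => W.tr ((Pw ops X.fib n s).prod (Z s))) tY)
    (hprj : ∀ (p : Fin (n + 1)) (s t : S) (γ : s ⟶ t) (a : W.H (X.fib s)),
        tA s t γ (W.map (prj ops n (fun _ => pz (X.fib s)) p) a) =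
          W.map (prj ops n (fun _ => pz (X.fib t)) p) (X.tp s t γ a))
    (hfst : ∀ s t γ a, tY s t γ (W.map (fst (Pw ops X.fib n s) (Z s)) a) =
      W.map (fst (Pw ops X.fib n t) (Z t)) (tA s t γ a))
    (hsnd : ∀ s t γ a, tY s t γ (W.map (snd (Pw ops X.fib n s) (Z s)) a) =
      W.map (snd (Pw ops X.fib n t) (Z t)) (tZ s t γ a))
    (hP : IsProjector tZ (fun s => algSpan W (Z s)) P)
    (hbox : ∀ s a b, Q s (W.map (fst (Pw ops X.fib n s) (Z s)) a *
        W.map (snd (Pw ops X.fib n s) (Z s)) b) =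
      W.map (fst (Pw ops X.fib n s) (Z s)) a * W.map (snd (Pw ops X.fib n s) (Z s)) (P s b))
    (hg : ∀ a, tZ η η g.hom (P η a) = P η a) : Expands tY Q η := by
  obtain ⟨s⟩ := exists_SB hDX
  obtain ⟨b, hb⟩ := exists_monoBasis (ops := ops) (pz (X.fib η)) s.e n
  obtain ⟨s'⟩ := exists_SB hDP
  refine ⟨s'.NC, fun l => (s'.uC l : W.H (Pw ops X.fib n η)),
    fun l => (s'.bC l : W.H (Pw ops X.fib n η)), fun l => (s'.uC l).2, fun l => (s'.bC l).2, ?_⟩
  intro c hc hcI
  obtain ⟨Δ, hΔ, h1⟩ := hcI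
  have hGal : IsGalois W (1 : Aut η →* W.Kˣ) (pz (X.fib η)).X (act X.isParallel η) :=
    { gr_mem := fun g i a ha => X.isParallel.gr_mem η η g.hom i a ha
      tr_act := fun g a => by
        rw [MonoidHom.one_apply, Units.val_one, one_pow, one_mul]
        exact X.isParallel.tr_eq η η g.hom a
      cl_act := fun g j c hc => ⟨_, hgen.spread η g.hom j c hc, by
        rw [MonoidHom.one_apply, Units.val_one, one_pow, one_smul]
        rfl⟩
      cl_fix := fun j c hc => by
        obtain ⟨Δ, hΔ, h1⟩ := hgen.finite j c hc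
        refine ⟨Δ, hΔ, fun g hg => ?_⟩
        rw [MonoidHom.one_apply, Units.val_one, one_pow, one_smul]
        exact h1 g hg }
  have hPow : IsPowAct W (pz (X.fib η)) n (Z η) (act X.isParallel η) (act hZ η)
      (act hY η) := by
    intro g
    refine ⟨fun p a => ?_, fun b => hsnd η η g.hom b⟩
    refine (hfst η η g.hom _).trans ?_
    rw [hprj]
    rfl
  refine lspan_dual s' (tgt_lspan' (P := pz (X.fib η)) (s := s) hDX hmid ?_)
  refine mem_Tgt_sub (P := pz (X.fib η)) hb hDX hmid hGal hPow hirr (g := g)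
    (MonoidHom.one_apply g) (E := LinearMap.range (P η)) ?_ ?_ hPL hK ?_ (j := 0) hΔ ?_
  · rintro g' _ ⟨x, rfl⟩
    exact ⟨_, (hP.flat η η g'.hom x).symm⟩
  · rintro _ ⟨x, rfl⟩
    exact hg x
  · intro φ
    refine ⟨ctr φ c, ?_⟩
    rw [← ctr_box hbox, hc]
  · intro g' hg'
    rw [pow_zero, one_smul]
    exact h1 g' hg'

/-- zero-cycles of nonzero degree on the powers -/
theorem exists_point (hDX : HomEqNum W (X.fib η)) (hDP : HomEqNum W (Pw ops X.fib n η))
    {g : Aut η} (hPL : X.IsNodeLoop η g) :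
    ∃ j, ∃ a ∈ algClasses W (Pw ops X.fib n η) j, W.tr (Pw ops X.fib n η) a ≠ 0 := by
  have h1 : (1 : W.H (X.fib η)) ≠ 0 := by
    obtain ⟨δ, hδ, hδ0, _⟩ := hPL
    intro h3
    apply hδ0
    rw [← one_mul δ, h3, zero_mul]
  obtain ⟨a, ha, ha0⟩ := exists_pt hDX h1
  have h2 : (1 : W.H (Pw ops X.fib n η)) ≠ 0 := by
    intro h3
    have h4 := tr_mono (pz (X.fib η)) a n
    refine pow_ne_zero (n + 1) ha0 (h4.symm.trans ?_)
    rw [← one_mul (mono (prj ops n fun _ => pz (X.fib η)) fun _ => a), h3, zero_mul, map_zero]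
  exact ⟨_, exists_pt hDP h2⟩

end

section

variable {X : Family W S} {n : ℕ} {η : S} {Y : Family W S} {D D' : LinearCat W S} {q : Prop}

/-- the statement for categories -/
def LinearCat.V (q : Prop) (D : LinearCat W S) : Prop :=
  VQ q D.fam.tp (fun s => algSpan W (D.fam.fib s)) D.P

/-- **One step.** -/
theorem step_iff (hconn : ∀ s : S, Nonempty (η ⟶ s))
    (hgen : ∀ m Y, IsPower X m Y → Y.VeryGeneral η)
    (hhom : ∀ m Y, IsPower X m Y → HomEqNum W (Y.fib η))
    (hmid : X.TransMiddle η) (hirr : X.TransIrreducible η)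
    (hnode : ∃ g : Aut η, X.IsNodeLoop η g ∧ D.IsTrivialLoop η g)
    (hK : Even (X.fib η).dim → FewRoots W.K ∧ n + 1 < dimOf (X.trans η))
    (hq : ∀ m Y, IsPower X m Y → ∀ j, ∀ c ∈ algClasses W (Y.fib η) j, FQ q Y.tp η c)
    (hpow : IsPower X n Y) (hbox : IsBox Y D D') : D'.V q ↔ D.V q := by
  have h0 := hgen n Y hpow
  have h1 := hhom n Y hpow
  have h2 := hq n Y hpow
  obtain ⟨tA, hA, hprj, rfl⟩ := isPower_nest hpow
  obtain ⟨tY, hprod, Q, hQ, hext⟩ := hbox
  obtain ⟨g, hPL, hg⟩ := hnode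
  have hE : Expands (A := Pw ops X.fib n) (Z := D.fam.fib) tY Q η :=
    expands (tA := tA) (hhom 0 X IsPower.one) h1 hmid hirr hPL (hgen 0 X IsPower.one) hK
      D.fam.isParallel hprod.parallel hprj hprod.fst hprod.snd D.isProjection hext hg
  constructor
  · intro hV
    exact vq_factor (A := Pw ops X.fib n) (Z := D.fam.fib) (tA := tA) (tZ := D.fam.tp)
      (tY := tY) hA hprod.snd hext hconn h0
      (exists_point (hhom 0 X IsPower.one) h1 hPL) hV
  · intro hV
    exact vq_box (A := Pw ops X.fib n) (Z := D.fam.fib) (tA := tA) (tZ := D.fam.tp)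
      (tY := tY) hA D.fam.isParallel hprod.parallel hprod.fst hprod.snd hext hconn h0 h2 hE
      D.isProjection hQ hV

/-- a loop which acts trivially on `X` acts trivially on the powers of `X` -/
theorem power_trivial {g : Aut η} (hX : X.IsTrivialLoop η g) (hpow : IsPower X n Y) :
    Y.IsTrivialLoop η g := by
  induction hpow with
  | one => exact hX
  | @succ n Y tp hp _ ih =>
    intro a
    refine kun_ext (A := X.fib η) (Z := Y.fib η) (L := fun a => tp η η g.hom a)
      (L' := fun a => a) (fun a b => map_add _ a b) (fun a b => rfl) (fun a z => ?_) a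
    refine (tY_ext (A := X.fib) (Z := Y.fib) hp.fst hp.snd η η g.hom a z).trans ?_
    exact congrArg₂ (· * ·) (congrArg _ (hX a)) (congrArg _ (ih z))

theorem box_trivial {g : Aut η} (hX : Y.IsTrivialLoop η g) (hD : D.IsTrivialLoop η g)
    (hbox : IsBox Y D D') : D'.IsTrivialLoop η g := by
  obtain ⟨tY, hprod, Q, hQ, hext⟩ := hbox
  intro a
  refine kun_ext (A := Y.fib η) (Z := D.fam.fib η)
    (L := fun a => tY η η g.hom (Q η a)) (L' := fun a => Q η a)
    (fun a b => (congrArg _ (map_add (Q η) a b)).trans (map_add _ _ _))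
    (fun a b => map_add (Q η) a b) (fun a z => ?_) a
  have h1 : Q η (W.map (fst (Y.fib η) (D.fam.fib η)) a *
      W.map (snd (Y.fib η) (D.fam.fib η)) z) = W.map (fst (Y.fib η) (D.fam.fib η)) a *
      W.map (snd (Y.fib η) (D.fam.fib η)) (D.P η z) := hext η a z
  refine (congrArg (tY η η g.hom) h1).trans (Eq.trans ?_ h1.symm)
  refine (tY_ext (A := Y.fib) (Z := D.fam.fib) hprod.fst hprod.snd η η g.hom a _).trans ?_
  exact congrArg₂ (· * ·) (congrArg _ (hX a)) (congrArg _ (hD z))

end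

/-! ### Towers -/

variable {ι : Type} {X : ι → Family W S} {D : LinearCat W S} {η : S} {q : Prop}

theorem tower_trivial {T : Set ι} {D' : LinearCat W S} (h : Tower X D η T D') {g : Aut η}
    (hX : ∀ i ∈ T, (X i).IsTrivialLoop η g) (hP : D.IsTrivialLoop η g) :
    D'.IsTrivialLoop η g := by
  induction h with
  | base => exact hP
  | @step T D₁ D₂ Y i n _ _ _ hpow hbox ih =>
    exact box_trivial (power_trivial (hX i (Set.mem_insert _ _)) hpow)
      (ih fun j hj => hX j (Set.mem_insert_of_mem _ hj)) hbox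

/-- **The equivalence for towers.** -/
theorem NodalSystem.tower_iff (h : NodalSystem X D η)
    (hq : ∀ i m Y, IsPower (X i) m Y → ∀ j, ∀ c ∈ algClasses W (Y.fib η) j, FQ q Y.tp η c)
    {T : Set ι} {D' : LinearCat W S} (hT : Tower X D η T D') : D'.V q ↔ D.V q := by
  induction hT with
  | base => exact Iff.rfl
  | @step T D₁ D₂ Y i n hT hi hn hpow hbox ih =>
    refine Iff.trans ?_ ih
    refine step_iff h.connected (h.general i) (h.homEqNum i) (h.middle i) (h.irreducible i) ?_
      (fun he => ⟨h.few ⟨i, he⟩, hn he⟩) (hq i) hpow hbox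
    obtain ⟨g, hPL, hX, hP⟩ := h.node i
    refine ⟨g, hPL, tower_trivial hT (fun j hj => hX j ?_) hP⟩
    rintro rfl
    exact hi hj

theorem NodalSystem.conn (h : NodalSystem X D η) (s t : S) : Nonempty (s ⟶ t) := by
  obtain ⟨α⟩ := h.connected s
  obtain ⟨β⟩ := h.connected t
  exact ⟨Groupoid.inv α ≫ β⟩

theorem algSpan_top {Z : 𝒱.Obj} (h : Z.dim = 0) (c : W.H Z) : c ∈ algSpan W Z := by
  refine gr_induction (W.isInternal Z) (p := fun c => c ∈ algSpan W Z) ?_ ?_ c
  · intro i c hc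
    rcases Nat.eq_zero_or_pos i with rfl | hi
    · rw [W.gr_zero] at hc
      obtain ⟨r, rfl⟩ := Submodule.mem_span_singleton.1 hc
      exact Submodule.smul_mem _ _ algSpan_one
    · rw [W.gr_eq_bot Z i (by omega), Submodule.mem_bot] at hc
      rw [hc]
      exact Submodule.zero_mem _
  · intro x y hx hy
    exact Submodule.add_mem _ hx hy

theorem v_point {D : LinearCat W S} (h : ∀ s, (D.fam.fib s).dim = 0) : D.V q :=
  fun _ _ _ _ _ t _ => algSpan_top (h t) _

theorem v_sub {D E : LinearCat W S} (hE : IsSubcategory D E) (h : D.V q) : E.V q := by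
  obtain ⟨P, hP, hc⟩ := hE
  exact VQ.sub hc h

/-- **The main theorem.** -/
theorem NodalSystem.main (h : NodalSystem X D η) {T : Set ι} {D' : LinearCat W S}
    (hD' : Tower X D η T D') :
    (D'.QOneCoverings ↔ D.QOneCoverings) ∧
    ((∀ i m Y, IsPower (X i) m Y → Y.TrivialOnCycles η) → (D'.QOne ↔ D.QOne)) ∧
    ((D.QOneCoverings ∨ ∀ s, (D.fam.fib s).dim = 0) →
      ∀ E, IsSubcategory D' E → E.QOneCoverings ∧ E.QOne) := by
  have h1 : D'.V False ↔ D.V False :=
    h.tower_iff (fun i m Y hY j c hc => fq_false.2 ((h.general i m Y hY).finite j c hc)) hD'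
  refine ⟨?_, ?_, ?_⟩
  · exact ((vq_false D'.isProjection).symm.trans h1).trans (vq_false D.isProjection)
  · intro hA
    have h2 : D'.V True ↔ D.V True :=
      h.tower_iff (fun i m Y hY j c hc => fq_true.2 (hA i m Y hY j c hc)) hD'
    exact ((vq_true D'.fam.isParallel D'.isProjection h.conn).symm.trans h2).trans
      (vq_true D.fam.isParallel D.isProjection h.conn)
  · intro hD E hE
    have h2 : D.V False := by
      rcases hD with hD | hD
      · exact (vq_false D.isProjection).2 hD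
      · exact v_point hD
    have h3 : E.V False := v_sub hE (h1.2 h2)
    exact ⟨(vq_false E.isProjection).1 h3,
      (vq_true E.fam.isParallel E.isProjection h.conn).1 h3.mono⟩

end Pool.Agent.K3h96.VH
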