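import Pool.Agent.TH125.Gal.Fpp

/-!
# The structure theorem for classes with values in a subspace of the cohomology of the base factor

The starting file `TH125/Gal/Str.lean` treats loops which act trivially on the whole cohomology of
`Z`. Here the loop acts trivially only on a stable subspace `E` which contains all the contractions
of the class.
-/

open CategoryTheory AlgebraicGeometry Finset

set_option linter.unusedSectionVars false

universe u v w

namespace Pool.Agent.K3h96.VH

open Pool.Agent.H914 Pool.Agent.H914.VarClass Pool.Agent.H914.VarClass.Obj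
  Pool.Agent.H914.WeilCohomology Pool.Agent.H281R3.HT Pool.Agent.W552 Pool.Agent.TH125.Gal
open Pool.Agent.TH125 (Nod.gen Nod.Gen)

variable {k : Type u} [Field k] {𝒱 : VarClass k} {ops : CycleOps 𝒱}
  {W : WeilCohomology.{u, v} ops}

/-- all the contractions of `c` are in `E` -/
def ValIn {A Z : 𝒱.Obj} (E : Submodule W.K (W.H Z)) (c : W.H (A.prod Z)) : Prop :=
  ∀ φ : W.H A →ₗ[W.K] W.K, ctr φ c ∈ E

section

variable {P : Polarized 𝒱} {n : ℕ} {Z : 𝒱.Obj} {s : SB W P.X}
  {b : Module.Basis (Fin (n + 1) → Fin s.NC ⊕ Fin s.NT) W.K (W.H (nest ops n fun _ => P).X)}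
  (hb : ∀ r, b r = mono (prj ops n fun _ => P) fun p => s.e (r p))

variable {Γ : Type w} [Group Γ] {χ : Γ →* W.Kˣ} {ρ : Γ →* (W.H P.X ≃ₐ[W.K] W.H P.X)}
  {τ : Γ →* (W.H Z ≃ₐ[W.K] W.H Z)}
  {υ : Γ →* (W.H ((nest ops n fun _ => P).X.prod Z) ≃ₐ[W.K]
    W.H ((nest ops n fun _ => P).X.prod Z))}

/-- the twisted action on a stable subspace -/
noncomputable def twistE (lam : Γ →* W.Kˣ) (τ : Γ →* (W.H Z ≃ₐ[W.K] W.H Z))
    (E : Submodule W.K (W.H Z)) (hE : ∀ g, ∀ x ∈ E, τ g x ∈ E) : Γ →* (E →ₗ[W.K] E) where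
  toFun g := (twist lam τ g).restrict fun x hx => by
    rw [twist_apply]
    exact Submodule.smul_mem _ _ (hE g x hx)
  map_one' := by
    apply LinearMap.ext
    intro t
    apply Subtype.ext
    change twist lam τ 1 (t : W.H Z) = t
    rw [map_one]
    rfl
  map_mul' g g' := by
    apply LinearMap.ext
    intro t
    apply Subtype.ext
    change twist lam τ (g * g') (t : W.H Z) = twist lam τ g (twist lam τ g' (t : W.H Z))
    rw [map_mul]
    rfl

theorem twistE_apply (lam : Γ →* W.Kˣ) (τ : Γ →* (W.H Z ≃ₐ[W.K] W.H Z))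
    (E : Submodule W.K (W.H Z)) (hE : ∀ g, ∀ x ∈ E, τ g x ∈ E) (g : Γ) (x : E) :
    (twistE lam τ E hE g x : W.H Z) = (lam g : W.K) • τ g x := rfl

include hb in
/-- the coordinates at the free positions are invariant -/
theorem gen_free_sub (hDX : HomEqNum W P.X) (hmid : transcendental W P.X ≤ W.gr P.X P.X.dim)
    (hG : IsGalois W χ P.X ρ) (hP : IsPowAct W P n Z ρ τ υ)
    (hirr : StronglyIrreducible ρ (transcendental W P.X)) {g : Γ} (hχ : χ g = 1)
    {E : Submodule W.K (W.H Z)} (hE : ∀ g, ∀ x ∈ E, τ g x ∈ E) (hEg : ∀ x ∈ E, τ g x = x)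
    (hPL : PicardLefschetz W P.X (ρ g))
    (hK : Even P.X.dim → FewRoots W.K ∧ n + 1 < Module.finrank W.K (transcendental W P.X))
    {c : W.H ((nest ops n fun _ => P).X.prod Z)} (hcE : ValIn E c)
    {j : ℕ} {Δ : Subgroup Γ} (hΔ : Δ.FiniteIndex)
    (hc : ∀ g ∈ Δ, υ g c = (χ g : W.K) ^ j • c) (c₀ : Fin (n + 1) → Option (Fin s.NC)) :
    (fun r : Free c₀ → Fin s.NT => hml s.e b c fun p => s.es (comb c₀ r p)) ∈
      Nod.Gen (fun _ : Fin s.NT => ()) (Matrix.of fun i j => bil W P.X (s.uT i) (s.uT j))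
        (fun _ : Free c₀ => ()) := by
  obtain ⟨δ, hδ, hδ0, x, hx, hgx⟩ := hPL
  have heven : (-1 : ℤ) ^ P.X.dim = 1 → Even P.X.dim := by
    intro h
    by_contra h'
    rw [(Nat.not_even_iff_odd.1 h').neg_one_pow] at h
    exact absurd h (by decide)
  have hval : ∀ v, hS s b c c₀ v ∈ E := by
    intro v
    rw [hS_apply, hml_eq hb]
    exact hcE _
  have heqv := hS_eqv hb hG hP hΔ hc c₀
  have heqvE : Eqv (rhoT hG) (twistE (lamb χ s c₀ j) τ E hE)
      ((hS s b c c₀).codRestrict E hval) := by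
    obtain ⟨Δ', hΔ', h⟩ := heqv
    refine ⟨Δ', hΔ', fun g hg v => ?_⟩
    apply Subtype.ext
    exact h g hg v
  have h1 := gen_mem (S := Free c₀) (J := Fin s.NT) (s := (-1) ^ P.X.dim)
    (μ := fun g => (χ g : W.K) ^ P.X.dim) (B := rform W P.X (transcendental W P.X))
    (neg_one_pow_eq_or ℤ _)
    (fun a b => by
      rw [rform_apply, rform_apply, trans_symm hmid a.2 b.2]
      push_cast
      rfl)
    (trans_nondeg hDX) (fun g => pow_ne_zero _ (Units.ne_zero _))
    (fun g a b => bil_act hG g a b) (SI_rhoT hG hirr) (g := g) (δ := ⟨δ, hδ⟩) (c := x)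
    (fun h => hδ0 (congrArg Subtype.val h)) hx
    (fun t => Subtype.ext (hgx t t.2))
    (by rw [hχ, Units.val_one, one_pow])
    (σ := twistE (lamb χ s c₀ j) τ E hE)
    (by
      apply LinearMap.ext
      intro z
      apply Subtype.ext
      rw [twistE_apply, lamb_apply, hχ, hEg _ z.2]
      simp)
    (fun h => ⟨(hK (heven h)).1, by have := (hK (heven h)).2; omega⟩)
    heqvE s.uT
    (fun h => by
      have h2 := (hK (heven h)).2
      rw [Module.finrank_eq_card_basis s.uT] at h2
      refine lt_of_le_of_lt (Fintype.card_subtype_le _) ?_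
      rwa [Fintype.card_fin])
  have h2 : (fun r : Free c₀ → Fin s.NT => hS s b c c₀ fun j => s.uT (r j)) =
      fun r : Free c₀ → Fin s.NT => hml s.e b c fun p => s.es (comb c₀ r p) := by
    funext r
    exact hS_comb c c₀ r
  rw [← h2]
  -- push forward by the inclusion of `E`
  have h3 : ∀ F ∈ Nod.Gen (M := E) (fun _ : Fin s.NT => ())
      (Matrix.of fun i j => bil W P.X (s.uT i) (s.uT j)) (fun _ : Free c₀ => ()),
      (fun r => (F r : W.H Z)) ∈ Nod.Gen (M := W.H Z) (fun _ : Fin s.NT => ())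
        (Matrix.of fun i j => bil W P.X (s.uT i) (s.uT j)) (fun _ : Free c₀ => ()) := by
    intro F hF
    induction hF using Submodule.span_induction with
    | mem F hF =>
      obtain ⟨m, e, w, rfl⟩ := hF
      refine Submodule.subset_span ⟨m, e, (w : W.H Z), ?_⟩
      funext r
      rw [Nod.gen, Nod.gen, if_pos (fun _ => rfl), if_pos (fun _ => rfl)]
      rfl
    | zero => exact Submodule.zero_mem _
    | add F F' _ _ hF hF' => exact Submodule.add_mem _ hF hF'
    | smul x F _ hF => exact Submodule.smul_mem _ x hF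
  exact h3 _ h1

include hb in
/-- **The structure of the classes with values in `E`.** -/
theorem mem_Tgt_sub (hDX : HomEqNum W P.X) (hmid : transcendental W P.X ≤ W.gr P.X P.X.dim)
    (hG : IsGalois W χ P.X ρ) (hP : IsPowAct W P n Z ρ τ υ)
    (hirr : StronglyIrreducible ρ (transcendental W P.X)) {g : Γ} (hχ : χ g = 1)
    {E : Submodule W.K (W.H Z)} (hE : ∀ g, ∀ x ∈ E, τ g x ∈ E) (hEg : ∀ x ∈ E, τ g x = x)
    (hPL : PicardLefschetz W P.X (ρ g))
    (hK : Even P.X.dim → FewRoots W.K ∧ n + 1 < Module.finrank W.K (transcendental W P.X))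
    {c : W.H ((nest ops n fun _ => P).X.prod Z)} (hcE : ValIn E c)
    {j : ℕ} {Δ : Subgroup Γ} (hΔ : Δ.FiniteIndex)
    (hc : ∀ g ∈ Δ, υ g c = (χ g : W.K) ^ j • c) : c ∈ Tgt s n Z := by
  rw [expand b c, sum_patterns]
  refine Submodule.sum_mem _ fun c₀ _ => ?_
  have h1 := gen_free_sub hb hDX hmid hG hP hirr hχ hE hEg hPL hK hcE hΔ hc c₀
  have h2 : ∀ F ∈ Nod.Gen (fun _ : Fin s.NT => ())
      (Matrix.of fun i j => bil W P.X (s.uT i) (s.uT j)) (fun _ : Free c₀ => ()),
      ∑ r : Free c₀ → Fin s.NT, W.map (fst _ Z) (b (comb c₀ r)) * W.map (snd _ Z) (F r : W.H Z) ∈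
        Tgt s n Z := by
    intro F hF
    induction hF using Submodule.span_induction with
    | mem F hF =>
      obtain ⟨m, e, w, rfl⟩ := hF
      obtain ⟨ε, S, i, x, hx, h3⟩ := mq_sum (s := s) (π := prj ops n fun _ => P) hmid e
      have h4 : ∑ r : Free c₀ → Fin s.NT, W.map (fst _ Z) (b (comb c₀ r)) *
          W.map (snd _ Z) (Nod.gen (fun _ : Fin s.NT => ())
            (Matrix.of fun i j => bil W P.X (s.uT i) (s.uT j)) (fun _ : Free c₀ => ()) e w r) =
          (ε : W.K) • (W.map (fst _ Z) x * W.map (snd _ Z) w) := by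
        rw [← smul_mul_assoc, ← map_smul, ← h3, map_sum, Finset.sum_mul]
        refine Finset.sum_congr rfl fun r _ => ?_
        rw [Nod.gen, if_pos (fun _ => rfl), map_smul, map_smul, mul_smul_comm, smul_mul_assoc,
          hb]
        rfl
      rw [h4]
      exact Submodule.smul_mem _ _ (Submodule.subset_span ⟨S, i, x, w, hx, rfl⟩)
    | zero =>
      simp only [Pi.zero_apply, map_zero, mul_zero, Finset.sum_const_zero]
      exact Submodule.zero_mem _
    | add F F' _ _ hF hF' =>
      simp only [Pi.add_apply, map_add, mul_add, Finset.sum_add_distrib]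
      exact Submodule.add_mem _ hF hF'
    | smul x F _ hF =>
      simp only [Pi.smul_apply, map_smul, mul_smul_comm]
      rw [← Finset.smul_sum]
      exact Submodule.smul_mem _ _ hF
  have h3 := h2 _ h1
  simp only [coord_eq hb]
  exact h3

end

end Pool.Agent.K3h96.VH
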